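import Mathlib
import Pool.Agent.Helper35.CollDefs
import Pool.Agent.Helper35.U6
import Pool.Agent.Helper35.V6

set_option autoImplicit false

open Filter

namespace Pool.Agent.Results.MP_ea9c5d_co.OrderOfGrowth

open Pool.Agent.CollTriples Pool.Agent.Helper35.Coll Pool.Agent.Helper35.Tern
  Pool.Agent.Helper35.Upper

/-- The order of growth of `f n` is `n log n`: for all large `n`,
`(1/1000) n log n ≤ f n ≤ 14 n log n`. In particular `f n` is not `O(n √(log n))`. -/
theorem result :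
    (∀ᶠ n : ℕ in atTop, (1 / 1000 : ℝ) * (n * Real.log n) ≤ (f n : ℝ) ∧
      (f n : ℝ) ≤ 14 * (n * Real.log n)) ∧
    ((fun n : ℕ => (f n : ℝ)) =Θ[atTop] (fun n : ℕ => (n : ℝ) * Real.log n)) ∧
    ¬ ((fun n : ℕ => (f n : ℝ)) =O[atTop] (fun n : ℕ => (n : ℝ) * Real.sqrt (Real.log n))) := by
  have hlow : ∀ᶠ n : ℕ in atTop, (1 / 1000 : ℝ) * (n * Real.log n) ≤ (f n : ℝ) := by
    filter_upwards [nice_asymptotic2] with n ⟨T, hT, hle⟩
    have : (T : ℝ) < f n := by exact_mod_cast lt_f_of_nice hT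
    linarith
  have hL : Tendsto (fun n : ℕ => Real.log (n : ℝ)) atTop atTop :=
    Real.tendsto_log_atTop.comp tendsto_natCast_atTop_atTop
  have hup : ∀ᶠ n : ℕ in atTop, (f n : ℝ) ≤ 14 * (n * Real.log n) := by
    filter_upwards [hL.eventually_ge_atTop 1, eventually_ge_atTop 1] with n h1 h2
    have h3 := f_le n
    have h4 : (1 : ℝ) ≤ n := by exact_mod_cast h2
    have h5 : (n : ℝ) ≤ n * Real.log n := le_mul_of_one_le_right (by linarith) h1
    linarith
  have hnonneg : ∀ᶠ n : ℕ in atTop, 0 ≤ (n : ℝ) * Real.log n := by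
    filter_upwards [hL.eventually_ge_atTop 0] with n h1
    positivity
  refine ⟨hlow.and hup, ⟨?_, ?_⟩, ?_⟩
  · apply Asymptotics.IsBigO.of_bound 14
    filter_upwards [hup, hnonneg] with n h1 h2
    rw [Real.norm_eq_abs, Real.norm_eq_abs, abs_of_nonneg (Nat.cast_nonneg _), abs_of_nonneg h2]
    exact h1
  · apply Asymptotics.IsBigO.of_bound 1000
    filter_upwards [hlow, hnonneg] with n h1 h2
    rw [Real.norm_eq_abs, Real.norm_eq_abs, abs_of_nonneg h2,
      abs_of_nonneg (Nat.cast_nonneg (α := ℝ) (f n))]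
    linarith
  · intro hO
    obtain ⟨C, hC⟩ := hO.bound
    obtain ⟨n, g1, g2, g3, g4⟩ := (hC.and (hlow.and ((hL.eventually_gt_atTop ((1000 * |C|) ^ 2)).and
      (eventually_gt_atTop (0 : ℕ))))).exists
    set L := Real.log (n : ℝ) with hLdef
    have hn : (0 : ℝ) < n := by exact_mod_cast g4
    have hLpos : 0 < L := lt_of_le_of_lt (sq_nonneg _) g3
    have hsq : 0 < Real.sqrt L := Real.sqrt_pos.mpr hLpos
    have hss : Real.sqrt L * Real.sqrt L = L := Real.mul_self_sqrt hLpos.le
    rw [Real.norm_eq_abs, Real.norm_eq_abs, abs_of_nonneg (Nat.cast_nonneg _),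
      abs_of_nonneg (by positivity)] at g1
    have g5 : 1000 * |C| < Real.sqrt L := by
      apply Real.lt_sqrt_of_sq_lt g3
    have g6 : C * (n * Real.sqrt L) ≤ |C| * (n * Real.sqrt L) :=
      mul_le_mul_of_nonneg_right (le_abs_self C) (by positivity)
    have g7 : 0 < n * Real.sqrt L := by positivity
    have g8 : 1000 * |C| * (n * Real.sqrt L) < Real.sqrt L * (n * Real.sqrt L) :=
      mul_lt_mul_of_pos_right g5 g7
    have g9 : Real.sqrt L * (n * Real.sqrt L) = n * L := by
      calc Real.sqrt L * (n * Real.sqrt L) = n * (Real.sqrt L * Real.sqrt L) := by ring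
        _ = n * L := by rw [hss]
    linarith

end Pool.Agent.Results.MP_ea9c5d_co.OrderOfGrowth
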